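import Pool.Agent.H671R2.ZDefs

set_option autoImplicit false

/-! Embedded trees and neighborhood subtree tolerance (NeST) graphs (problem MP_5c36ef_lc). -/

namespace Pool.Agent.H692Z.Nest

open Metric

/-- A finite tree with positive edge lengths. The vertices are `0, ..., n`; edge number `i` joins
vertex `i + 1` to an earlier vertex `par i` and has length `len i` (every finite tree can be
numbered in this way). The tree is drawn in `ℝ^n`: vertex `0` is the origin and edge `i` is a
segment parallel to the `i`-th axis, `pos v` being the position of vertex `v`. -/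
structure ETree where
  /-- the number of edges -/
  n : ℕ
  /-- edge `i` joins vertex `i + 1` to vertex `par i` -/
  par : Fin n → Fin (n + 1)
  par_le : ∀ i, (par i : ℕ) ≤ i
  /-- edge lengths -/
  len : Fin n → ℝ
  len_pos : ∀ i, 0 < len i
  /-- positions of the vertices -/
  pos : Fin (n + 1) → Fin n → ℝ
  pos_zero : pos 0 = 0
  pos_succ : ∀ i, pos i.succ = pos (par i) + Pi.single i (len i)

/-- All points of the tree: the root and every point of every edge. The ambient space carries the
`ℓ¹` metric, so the distance of two points is the length of the path between them in the tree. -/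
def ETree.pts (T : ETree) : Set (PiLp 1 (fun _ : Fin T.n => ℝ)) :=
  {p | p.ofLp = 0 ∨ ∃ (i : Fin T.n) (s : ℝ), 0 ≤ s ∧ s ≤ T.len i ∧
    p.ofLp = T.pos (T.par i) + Pi.single i s}

/-- `G` is a NeST graph: there are an embedded tree, neighborhood subtrees (closed balls of the
tree with centres `c v` and radii `r v > 0`) and tolerances `t v > 0` such that distinct vertices
are adjacent iff their subtrees meet in a set of diameter at least the smaller tolerance. -/
def IsNeST {V : Type} (G : SimpleGraph V) : Prop :=
  ∃ (T : ETree) (c : V → T.pts) (r t : V → ℝ), (∀ v, 0 < r v) ∧ (∀ v, 0 < t v) ∧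
    ∀ x y, x ≠ y → (G.Adj x y ↔
      (closedBall (c x) (r x) ∩ closedBall (c y) (r y)).Nonempty ∧
        min (t x) (t y) ≤ diam (closedBall (c x) (r x) ∩ closedBall (c y) (r y)))

/-- The recognition problem: the input is the adjacency matrix of a NeST graph. -/
def NeSTRec (A : List (List Bool)) : Prop :=
  ∃ (n : ℕ) (G : SimpleGraph (Fin n)), Pool.Agent.NPC.R671.adjMatrix G = A ∧ IsNeST G

end Pool.Agent.H692Z.Nest
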