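import Pool.Agent.H692Z.Nest.Graph

set_option autoImplicit false

/-! Coordinates of the lines, and the comparison lemmas. -/

namespace Pool.Agent.H692Z.Nest

def cA (α β : ℤ) (i : ℕ) : ℤ :=
  (if i / 2 = 0 then α + 2 else if i / 2 = 1 then α else if i / 2 = 2 then β else α + 5) +
    (if i % 2 = 1 then 1 else -1)

def cB (α β : ℤ) (i : ℕ) : ℤ :=
  (if i / 2 = 0 then α + 2 - 600 else if i / 2 = 1 then -α else if i / 2 = 2 then -β
    else α + 5 + 600) + (if i % 2 = 1 then 1 else -1)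

def top (sg : ℕ → Bool) (u v : ℕ → ℤ) (a : ℕ) : ℤ :=
  900 * (a / 8 : ℕ) + (bif sg (a / 8) then cA (u (a / 8)) (v (a / 8)) (a % 8)
    else cB (-u (a / 8)) (-v (a / 8)) (a % 8))

def bot (sg : ℕ → Bool) (u v : ℕ → ℤ) (a : ℕ) : ℤ :=
  900 * (a / 8 : ℕ) + (bif sg (a / 8) then cB (u (a / 8)) (v (a / 8)) (a % 8)
    else cA (-u (a / 8)) (-v (a / 8)) (a % 8))

theorem geo_same {α β : ℤ} (h1 : -100 ≤ α) (h2 : β ≤ 100) (h3 : α + 7 ≤ β) (i j : ℕ) (hi : i < 8)
    (hj : j < 8) : (i / 2 + 2 ≤ j / 2 ∨ (i % 2 = 0 ∧ j = i + 1)) ↔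
      (cA α β i < cA α β j ∧ cB α β i < cB α β j) := by
  interval_cases i <;> interval_cases j <;> simp [cA, cB] <;> omega

theorem geo_next {α β α' β' : ℤ} (h1 : -100 ≤ α) (h2 : β ≤ 100) (h3 : α + 7 ≤ β)
    (k1 : -100 ≤ α') (k2 : β' ≤ 100) (k3 : α' + 7 ≤ β') (i j : ℕ) (hi : i < 8) (hj : j < 8) :
    (i / 2 + 2 ≤ 4 + j / 2 ↔
      (cA α β i < 900 + cA α' β' j ∧ cB α β i < 900 + cB α' β' j)) ∧
    ¬ (900 + cA α' β' j < cA α β i ∧ 900 + cB α' β' j < cB α β i) := by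
  interval_cases i <;> interval_cases j <;> simp [cA, cB] <;> omega

theorem geo_bd {α β : ℤ} (h1 : -100 ≤ α) (h2 : β ≤ 100) (h3 : α + 7 ≤ β) (i : ℕ) (hi : i < 8) :
    -800 ≤ cA α β i ∧ cA α β i ≤ 800 ∧ -800 ≤ cB α β i ∧ cB α β i ≤ 800 := by
  interval_cases i <;> simp [cA, cB] <;> omega

/-- Admissible slopes. -/
def OK (sg : ℕ → Bool) (u v : ℕ → ℤ) : Prop :=
  ∀ s, -100 ≤ u s ∧ u s ≤ 100 ∧ -100 ≤ v s ∧ v s ≤ 100 ∧
    (sg s = true → u s + 7 ≤ v s) ∧ (sg s = false → v s + 7 ≤ u s)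

theorem geo {sg : ℕ → Bool} {u v : ℕ → ℤ} (h : OK sg u v) (a b : ℕ)
    (h1 : a / 8 + 1 = b / 8 → sg (a / 8) = sg (b / 8))
    (h2 : b / 8 + 1 = a / 8 → sg (a / 8) = sg (b / 8)) :
    prec a b = true ↔ top sg u v a < top sg u v b ∧ bot sg u v a < bot sg u v b := by
  rw [prec_iff]
  obtain ⟨s, i, hi, rfl⟩ : ∃ s i, i < 8 ∧ a = 8 * s + i := ⟨a / 8, a % 8, by omega, by omega⟩
  obtain ⟨s', j, hj, rfl⟩ : ∃ s i, i < 8 ∧ b = 8 * s + i := ⟨b / 8, b % 8, by omega, by omega⟩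
  have e1 : (8 * s + i) / 8 = s := by omega
  have e2 : (8 * s' + j) / 8 = s' := by omega
  have e3 : (8 * s + i) % 8 = i := by omega
  have e4 : (8 * s' + j) % 8 = j := by omega
  unfold top bot
  rw [e1, e2] at h1 h2
  rw [e1, e2, e3, e4]
  obtain ⟨p1, p2, p3, p4, p5, p6⟩ := h s
  obtain ⟨q1, q2, q3, q4, q5, q6⟩ := h s'
  by_cases c0 : s = s'
  · subst c0
    cases hs : sg s
    · have := geo_same (α := -u s) (β := -v s) (by omega) (by omega) (by have := p6 hs; omega)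
        i j hi hj
      simp only [cond_false]
      omega
    · have := geo_same (α := u s) (β := v s) (by omega) (by omega) (p5 hs) i j hi hj
      simp only [cond_true]
      omega
  by_cases c1 : s + 1 = s'
  · have e := h1 c1
    subst c1
    cases hs : sg s
    · rw [hs] at e
      have := (geo_next (α := -u s) (β := -v s) (α' := -u (s + 1)) (β' := -v (s + 1)) (by omega)
        (by omega) (by have := p6 hs; omega) (by omega) (by omega)
        (by have := q6 e.symm; omega) i j hi hj).1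
      rw [← e]
      simp only [cond_false]
      push_cast
      omega
    · rw [hs] at e
      have := (geo_next (α := u s) (β := v s) (α' := u (s + 1)) (β' := v (s + 1)) (by omega)
        (by omega) (p5 hs) (by omega) (by omega) (q5 e.symm) i j hi hj).1
      rw [← e]
      simp only [cond_true]
      push_cast
      omega
  by_cases c2 : s' + 1 = s
  · have e := h2 c2
    subst c2
    cases hs : sg s'
    · rw [hs] at e
      have := (geo_next (α := -u s') (β := -v s') (α' := -u (s' + 1)) (β' := -v (s' + 1))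
        (by omega) (by omega) (by have := q6 hs; omega) (by omega) (by omega)
        (by have := p6 e; omega) j i hj hi).2
      rw [e]
      simp only [cond_false]
      push_cast
      omega
    · rw [hs] at e
      have := (geo_next (α := u s') (β := v s') (α' := u (s' + 1)) (β' := v (s' + 1)) (by omega)
        (by omega) (q5 hs) (by omega) (by omega) (p5 e) j i hj hi).2
      rw [e]
      simp only [cond_true]
      push_cast
      omega
  have b1 : -800 ≤ (bif sg s then cA (u s) (v s) i else cB (-u s) (-v s) i) ∧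
      (bif sg s then cA (u s) (v s) i else cB (-u s) (-v s) i) ≤ 800 ∧
      -800 ≤ (bif sg s then cB (u s) (v s) i else cA (-u s) (-v s) i) ∧
      (bif sg s then cB (u s) (v s) i else cA (-u s) (-v s) i) ≤ 800 := by
    cases hs : sg s
    · have := geo_bd (α := -u s) (β := -v s) (by omega) (by omega) (by have := p6 hs; omega) i hi
      simp only [cond_false]; omega
    · have := geo_bd (α := u s) (β := v s) (by omega) (by omega) (p5 hs) i hi
      simp only [cond_true]; omega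
  have b2 : -800 ≤ (bif sg s' then cA (u s') (v s') j else cB (-u s') (-v s') j) ∧
      (bif sg s' then cA (u s') (v s') j else cB (-u s') (-v s') j) ≤ 800 ∧
      -800 ≤ (bif sg s' then cB (u s') (v s') j else cA (-u s') (-v s') j) ∧
      (bif sg s' then cB (u s') (v s') j else cA (-u s') (-v s') j) ≤ 800 := by
    cases hs : sg s'
    · have := geo_bd (α := -u s') (β := -v s') (by omega) (by omega) (by have := q6 hs; omega)
        j hj
      simp only [cond_false]; omega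
    · have := geo_bd (α := u s') (β := v s') (by omega) (by omega) (q5 hs) j hj
      simp only [cond_true]; omega
  omega

theorem slope1 (sg : ℕ → Bool) (u v : ℕ → ℤ) (s i : ℕ) (hi : i < 2) :
    top sg u v (2 * (4 * s + 1) + i) - bot sg u v (2 * (4 * s + 1) + i) = 2 * u s := by
  have e1 : (2 * (4 * s + 1) + i) / 8 = s := by omega
  have e2 : (2 * (4 * s + 1) + i) % 8 = 2 + i := by omega
  unfold top bot
  rw [e1, e2]
  interval_cases i <;> cases sg s <;> simp [cA, cB] <;> ring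

theorem slope2 (sg : ℕ → Bool) (u v : ℕ → ℤ) (s i : ℕ) (hi : i < 2) :
    top sg u v (2 * (4 * s + 2) + i) - bot sg u v (2 * (4 * s + 2) + i) = 2 * v s := by
  have e1 : (2 * (4 * s + 2) + i) / 8 = s := by omega
  have e2 : (2 * (4 * s + 2) + i) % 8 = 4 + i := by omega
  unfold top bot
  rw [e1, e2]
  interval_cases i <;> cases sg s <;> simp [cA, cB] <;> ring

/-- The item has its right end at pair `g`. -/
def RAt (e : It) (g : ℕ) : Prop := e.2 = 2 * g ∧ (e.1 = 2 * g ∨ e.1 / 2 + 2 ≤ g)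

/-- The item has its left end at pair `g`. -/
def LAt (e : It) (g : ℕ) : Prop := e.1 = 2 * g + 1 ∧ (e.2 = 2 * g + 1 ∨ g + 2 ≤ e.2 / 2)

theorem quad {τ : It → ℝ} {iv : List It} (h : Sep τ iv) {a b c d : It} {g : ℕ} (ha : a ∈ iv)
    (hb : b ∈ iv) (hc : c ∈ iv) (hd : d ∈ iv) (h1 : RAt a g) (h2 : LAt c g) (h3 : RAt b (g + 1))
    (h4 : LAt d (g + 1)) :
    (τ a < τ b ∧ τ a < τ d ∧ τ c < τ b ∧ τ c < τ d) ∨
      (τ b < τ a ∧ τ d < τ a ∧ τ b < τ c ∧ τ d < τ c) := by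
  unfold RAt at h1 h3
  unfold LAt at h2 h4
  refine h a ha b hb c hc d hd ?_ ?_ ?_ ?_ ?_ ?_ <;> simp only [Ad, prec_false_iff] <;> omega

/-- The filler lines of pair `g`. -/
def FR (g : ℕ) : It := (2 * g, 2 * g)

/-- The filler lines of pair `g`. -/
def FL (g : ℕ) : It := (2 * g + 1, 2 * g + 1)

theorem alt {τ : It → ℝ} {iv : List It} (h : Sep τ iv) {g : ℕ} (h0 : FR g ∈ iv)
    (h1 : FR (g + 1) ∈ iv) (h2 : FL (g + 1) ∈ iv) (h3 : FR (g + 2) ∈ iv) (h4 : FL (g + 2) ∈ iv) :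
    τ (FR (g + 1)) < τ (FR (g + 2)) ↔ ¬ τ (FR g) < τ (FR (g + 1)) := by
  have k1 := quad h (g := g + 1) h1 h3 h2 h4 ⟨rfl, Or.inl rfl⟩ ⟨rfl, Or.inl rfl⟩
    ⟨rfl, Or.inl rfl⟩ ⟨rfl, Or.inl rfl⟩
  have k2 := h _ h0 _ h1 _ h4 _ h2 (by simp only [Ad, prec_false_iff, FR, FL, and_true]; omega)
    (by simp only [Ad, prec_false_iff, FR, FL, and_true]; omega)
    (by simp only [Ad, prec_false_iff, FR, FL, and_true]; omega)
    (by simp only [Ad, prec_false_iff, FR, FL, and_true]; omega)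
    (by simp only [Ad, prec_false_iff, FR, FL, and_true]; omega)
    (by simp only [Ad, prec_false_iff, FR, FL, and_true]; omega)
  rcases k1 with ⟨a1, a2, a3, a4⟩ | ⟨a1, a2, a3, a4⟩ <;>
    rcases k2 with ⟨b1, b2, b3, b4⟩ | ⟨b1, b2, b3, b4⟩ <;> constructor <;> intro <;> linarith

theorem cmp {τ : It → ℝ} {iv : List It} (h : Sep τ iv) {g : ℕ} {e f : It} (h0 : FR g ∈ iv)
    (h1 : FL g ∈ iv) (h2 : FR (g + 1) ∈ iv) (h3 : FL (g + 1) ∈ iv) (he : e ∈ iv) (hf : f ∈ iv)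
    (k1 : RAt e g ∨ LAt e g) (k2 : RAt f (g + 1) ∨ LAt f (g + 1)) :
    (τ e < τ f ∧ τ (FR g) < τ (FR (g + 1))) ∨ (τ f < τ e ∧ ¬ τ (FR g) < τ (FR (g + 1))) := by
  have r1 : RAt (FR g) g := ⟨rfl, Or.inl rfl⟩
  have r2 : LAt (FL g) g := ⟨rfl, Or.inl rfl⟩
  have r3 : RAt (FR (g + 1)) (g + 1) := ⟨rfl, Or.inl rfl⟩
  have r4 : LAt (FL (g + 1)) (g + 1) := ⟨rfl, Or.inl rfl⟩
  have q0 := quad h h0 h2 h1 h3 r1 r2 r3 r4
  rcases k1 with k1 | k1 <;> rcases k2 with k2 | k2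
  · have q := quad h he hf h1 h3 k1 r2 k2 r4
    rcases q0 with ⟨a1, a2, a3, a4⟩ | ⟨a1, a2, a3, a4⟩ <;>
      rcases q with ⟨b1, b2, b3, b4⟩ | ⟨b1, b2, b3, b4⟩ <;>
      first | (exfalso; linarith) | exact Or.inl ⟨by linarith, a1⟩ |
        exact Or.inr ⟨by linarith, by linarith⟩
  · have q := quad h he h2 h1 hf k1 r2 r3 k2
    rcases q0 with ⟨a1, a2, a3, a4⟩ | ⟨a1, a2, a3, a4⟩ <;>
      rcases q with ⟨b1, b2, b3, b4⟩ | ⟨b1, b2, b3, b4⟩ <;>
      first | (exfalso; linarith) | exact Or.inl ⟨by linarith, a1⟩ |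
        exact Or.inr ⟨by linarith, by linarith⟩
  · have q := quad h h0 hf he h3 r1 k1 k2 r4
    rcases q0 with ⟨a1, a2, a3, a4⟩ | ⟨a1, a2, a3, a4⟩ <;>
      rcases q with ⟨b1, b2, b3, b4⟩ | ⟨b1, b2, b3, b4⟩ <;>
      first | (exfalso; linarith) | exact Or.inl ⟨by linarith, a1⟩ |
        exact Or.inr ⟨by linarith, by linarith⟩
  · have q := quad h h0 h2 he hf r1 k1 r3 k2
    rcases q0 with ⟨a1, a2, a3, a4⟩ | ⟨a1, a2, a3, a4⟩ <;>
      rcases q with ⟨b1, b2, b3, b4⟩ | ⟨b1, b2, b3, b4⟩ <;>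
      first | (exfalso; linarith) | exact Or.inl ⟨by linarith, a1⟩ |
        exact Or.inr ⟨by linarith, by linarith⟩

end Pool.Agent.H692Z.Nest
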