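import Pool.Agent.H692Z.Nest.Tree
import Pool.Agent.H671R2.GraphEnc

set_option autoImplicit false

/-! Graphs given by lists of pairs of locations; consequences of a NeST representation, and
representations on a segment. -/

namespace Pool.Agent.H692Z.Nest

open Metric Pool.Agent.Helper997.NeST Pool.Agent.NPC.R671

/-- Location `a` lies entirely to the left of location `b`. -/
def prec (a b : ℕ) : Bool :=
  decide (a / 2 + 2 ≤ b / 2) || (decide (a % 2 = 0) && decide (b = a + 1))

theorem prec_iff (a b : ℕ) : prec a b = true ↔ a / 2 + 2 ≤ b / 2 ∨ (a % 2 = 0 ∧ b = a + 1) := by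
  simp [prec]

theorem prec_false_iff (a b : ℕ) :
    prec a b = false ↔ ¬ (a / 2 + 2 ≤ b / 2 ∨ (a % 2 = 0 ∧ b = a + 1)) := by
  rw [← prec_iff]; simp

abbrev It : Type := ℕ × ℕ

def ad (x y : It × ℕ) : Bool :=
  !decide (x.2 = y.2) && (!prec x.1.2 y.1.1 && !prec y.1.2 x.1.1)

theorem ad_symm (x y : It × ℕ) : ad x y = ad y x := by
  unfold ad
  rw [Bool.and_comm (!prec x.1.2 y.1.1)]
  simp only [eq_comm]

theorem ad_irrefl (x : It × ℕ) : ad x x = false := by simp [ad]

def vs (iv : List It) : List (It × ℕ) := (iv ++ iv).zipIdx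

def gr (iv : List It) : SimpleGraph (Fin (vs iv).length) := listGraph (vs iv) ad ad_symm ad_irrefl

/-- Neither item lies to the left of the other. -/
def Ad (e f : It) : Prop := prec e.2 f.1 = false ∧ prec f.2 e.1 = false

theorem Ad.symm {e f : It} (h : Ad e f) : Ad f e := ⟨h.2, h.1⟩

theorem vs_length (iv : List It) : (vs iv).length = iv.length + iv.length := by simp [vs]

theorem vs_get (iv : List It) (i : Fin (vs iv).length) :
    (vs iv)[i].2 = i ∧ (vs iv)[i].1 ∈ iv := by
  have h : i.1 < (iv ++ iv).length := by have := i.2; simpa [vs] using this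
  have : (vs iv)[i] = ((iv ++ iv)[i.1], i.1) := by
    have h2 : (vs iv)[i] = (iv ++ iv).zipIdx[i.1]'(by simpa using h) := rfl
    rw [h2, List.getElem_zipIdx]
    simp
  rw [this]
  refine ⟨rfl, ?_⟩
  exact (List.mem_append.1 (List.getElem_mem h)).elim id id

theorem gr_adj (iv : List It) (i j : Fin (vs iv).length) (hij : i ≠ j) :
    (gr iv).Adj i j ↔ Ad (vs iv)[i].1 (vs iv)[j].1 := by
  change ad (vs iv)[i] (vs iv)[j] = true ↔ _
  unfold ad Ad
  rw [(vs_get iv i).1, (vs_get iv j).1]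
  have : (i : ℕ) ≠ j := fun e => hij (Fin.ext e)
  simp [this]

theorem exists_twins (iv : List It) {e : It} (he : e ∈ iv) :
    ∃ i j : Fin (vs iv).length, i ≠ j ∧ (vs iv)[i].1 = e ∧ (vs iv)[j].1 = e := by
  obtain ⟨k, hk, rfl⟩ := List.getElem_of_mem he
  refine ⟨⟨k, by rw [vs_length]; omega⟩, ⟨iv.length + k, by rw [vs_length]; omega⟩, ?_, ?_, ?_⟩
  · intro h
    have := congrArg Fin.val h
    simp only at this
    omega
  · simp [vs, List.getElem_append_left hk]
  · simp [vs]

/-- In every induced four-cycle the tolerances of the two diagonals are separated. -/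
def Sep (τ : It → ℝ) (iv : List It) : Prop :=
  ∀ a ∈ iv, ∀ b ∈ iv, ∀ c ∈ iv, ∀ d ∈ iv, ¬ Ad a c → ¬ Ad b d → Ad a b → Ad a d → Ad c b → Ad c d →
    (τ a < τ b ∧ τ a < τ d ∧ τ c < τ b ∧ τ c < τ d) ∨
      (τ b < τ a ∧ τ d < τ a ∧ τ b < τ c ∧ τ d < τ c)

theorem sep_aux {a b c d : ℝ}
    (h : min a b + min c d < min a c + min b d ∨ min a d + min c b < min a c + min b d) :
    (a < b ∧ a < d ∧ c < b ∧ c < d) ∨ (b < a ∧ d < a ∧ b < c ∧ d < c) := by
  rcases h with h | h <;>
  rcases le_total a b with h1 | h1 <;> rcases le_total c d with h2 | h2 <;>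
  rcases le_total a c with h3 | h3 <;> rcases le_total b d with h4 | h4 <;>
  rcases le_total a d with h5 | h5 <;> rcases le_total c b with h6 | h6 <;>
  simp only [min_eq_left, min_eq_right, h1, h2, h3, h4, h5, h6] at h <;>
  first
  | (exfalso; linarith)
  | (left; refine ⟨?_, ?_, ?_, ?_⟩ <;> linarith)
  | (right; refine ⟨?_, ?_, ?_, ?_⟩ <;> linarith)

theorem sound {iv : List It} (hself : ∀ e ∈ iv, Ad e e) (h : IsNeST (gr iv)) :
    ∃ τ : It → ℝ, Sep τ iv := by
  classical
  obtain ⟨T, c, r, t, hr, ht, hadj⟩ := h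
  have hT := T.isEmbeddedTree
  have hb : ∀ e : {e // e ∈ iv}, ∃ i : Fin (vs iv).length, (vs iv)[i].1 = e.1 ∧
      t i ≤ diam (closedBall (c i) (r i)) := by
    rintro ⟨e, he⟩
    obtain ⟨i, j, hij, hi, hj⟩ := exists_twins iv he
    have h1 : (gr iv).Adj i j := by
      rw [gr_adj iv i j hij, hi, hj]; exact hself e he
    have h2 := ((hadj i j hij).1 h1).2
    rcases min_le_iff.1 h2 with h3 | h3
    · exact ⟨i, hi, h3.trans (diam_mono Set.inter_subset_left isBounded_closedBall)⟩
    · exact ⟨j, hj, h3.trans (diam_mono Set.inter_subset_right isBounded_closedBall)⟩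
  choose g hg1 hg2 using hb
  have hc : ∀ e, ∃ c' : T.pts, closedBall c' (diam (closedBall (c (g e)) (r (g e))) / 2) =
      closedBall (c (g e)) (r (g e)) := fun e => canonical hT _ (hr _)
  choose c' hc' using hc
  set r' : {e // e ∈ iv} → ℝ := fun e => diam (closedBall (c (g e)) (r (g e))) / 2 with hr'
  have hc'' : ∀ e, closedBall (c' e) (r' e) = closedBall (c (g e)) (r (g e)) := hc'
  have hbd : ∀ e, t (g e) ≤ 2 * r' e := fun e => by
    have := hg2 e
    simp only [hr']; linarith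
  have hpos : ∀ e, 0 < r' e := fun e => by
    have := hbd e
    have := ht (g e)
    linarith
  have hsize : ∀ e, diam (closedBall (c' e) (r' e)) = 2 * r' e := fun e => by
    rw [hc'']; simp only [hr']; ring
  have key : ∀ e f : {e // e ∈ iv}, e ≠ f →
      (Ad e.1 f.1 ↔ min (t (g e)) (t (g f)) ≤ r' e + r' f - dist (c' e) (c' f)) := by
    intro e f hef
    have hne : g e ≠ g f := by
      intro h
      apply hef
      apply Subtype.ext
      rw [← hg1 e, ← hg1 f]
      simp only [h]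
    rw [← hg1 e, ← hg1 f, ← gr_adj iv _ _ hne, hadj _ _ hne, ← hc'', ← hc'',
      adj_iff_dist hT (t := fun e => t (g e)) hpos (fun e => ht _) hsize e f]
    have h1 := hbd e
    have h2 := hbd f
    constructor
    · intro h; exact h.trans (min_le_right _ _)
    · intro h
      exact le_min (le_min ((min_le_left _ _).trans h1) ((min_le_right _ _).trans h2)) h
  refine ⟨fun e => if he : e ∈ iv then t (g ⟨e, he⟩) else 0, ?_⟩
  intro a ha b hb c hc d hd hac hbd' hab had hcb hcd
  simp only [ha, hb, hc, hd, dif_pos]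
  have n1 : (⟨a, ha⟩ : {e // e ∈ iv}) ≠ ⟨c, hc⟩ := fun e => by
    have : a = c := congrArg Subtype.val e
    subst this; exact hac (hself a ha)
  have n2 : (⟨b, hb⟩ : {e // e ∈ iv}) ≠ ⟨d, hd⟩ := fun e => by
    have : b = d := congrArg Subtype.val e
    subst this; exact hbd' (hself b hb)
  have n3 : (⟨a, ha⟩ : {e // e ∈ iv}) ≠ ⟨b, hb⟩ := fun e => by
    have : a = b := congrArg Subtype.val e
    subst this; exact hbd' had
  have n4 : (⟨a, ha⟩ : {e // e ∈ iv}) ≠ ⟨d, hd⟩ := fun e => by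
    have : a = d := congrArg Subtype.val e
    subst this; exact hbd' hab.symm
  have n5 : (⟨c, hc⟩ : {e // e ∈ iv}) ≠ ⟨b, hb⟩ := fun e => by
    have : c = b := congrArg Subtype.val e
    subst this; exact hbd' hcd
  have n6 : (⟨c, hc⟩ : {e // e ∈ iv}) ≠ ⟨d, hd⟩ := fun e => by
    have : c = d := congrArg Subtype.val e
    subst this; exact hbd' hcb.symm
  have k1 := mt (key _ _ n1).2 hac
  have k2 := mt (key _ _ n2).2 hbd'
  have k3 := (key _ _ n3).1 hab
  have k4 := (key _ _ n4).1 had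
  have k5 := (key _ _ n5).1 hcb
  have k6 := (key _ _ n6).1 hcd
  have h4 := hT.fourPoint (c' ⟨a, ha⟩) (c' ⟨c, hc⟩) (c' ⟨b, hb⟩) (c' ⟨d, hd⟩)
  rw [not_le] at k1 k2
  apply sep_aux
  rcases le_max_iff.1 h4 with h5 | h5
  · left; linarith
  · right; linarith

/-- The tree with a single edge of length `L`. -/
noncomputable def seg (L : ℝ) (hL : 0 < L) : ETree where
  n := 1
  par := fun _ => 0
  par_le := fun _ => Nat.zero_le _
  len := fun _ => L
  len_pos := fun _ => hL
  pos := fun a _ => if a = 0 then 0 else L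
  pos_zero := by funext k; simp
  pos_succ := by
    intro i
    funext k
    have : k = i := Subsingleton.elim _ _
    subst this
    simp [Fin.succ_ne_zero]

/-- A point of the segment. -/
noncomputable def spt {L : ℝ} (hL : 0 < L) (s : ℝ) (h0 : 0 ≤ s) (h1 : s ≤ L) : (seg L hL).pts :=
  ⟨WithLp.toLp 1 (fun _ => s), Or.inr ⟨(0 : Fin 1), s, h0, h1, by
    funext k
    have : k = (0 : Fin 1) := Subsingleton.elim (α := Fin 1) _ _
    subst this
    change s = (if (0 : Fin 2) = 0 then 0 else L) + (Pi.single (0 : Fin 1) s : Fin 1 → ℝ) 0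
    simp⟩⟩

theorem dist_spt {L : ℝ} (hL : 0 < L) {s t : ℝ} (h0 : 0 ≤ s) (h1 : s ≤ L) (h2 : 0 ≤ t)
    (h3 : t ≤ L) : dist (spt hL s h0 h1) (spt hL t h2 h3) = |s - t| := by
  rw [Subtype.dist_eq, PiLp.dist_eq_of_L1]
  change ∑ _k : Fin 1, dist s t = _
  simp [Real.dist_eq]

theorem seg_size {L : ℝ} (hL : 0 < L) {s r : ℝ} (hr : 0 < r) (h0 : r ≤ s) (h1 : s + r ≤ L) :
    diam (closedBall (spt hL s (by linarith) (by linarith)) r) = 2 * r := by
  apply le_antisymm (diam_closedBall hr.le)
  have hu : spt hL (s + r) (by linarith) h1 ∈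
      closedBall (spt hL s (by linarith) (by linarith)) r := by
    rw [mem_closedBall, dist_spt, abs_of_nonneg (by linarith)]; linarith
  have hv : spt hL (s - r) (by linarith) (by linarith) ∈
      closedBall (spt hL s (by linarith) (by linarith)) r := by
    rw [mem_closedBall, dist_spt, abs_of_nonpos (by linarith)]; linarith
  refine le_trans (le_of_eq ?_) (dist_le_diam_of_mem isBounded_closedBall hu hv)
  rw [dist_spt, abs_of_nonneg (by linarith)]; ring

theorem exists_bound (iv : List It) (top bot : ℕ → ℝ) : ∃ C : ℝ, 0 < C ∧ ∀ e ∈ iv,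
    |top e.1| < C ∧ |top e.2| < C ∧ |bot e.1| < C ∧ |bot e.2| < C := by
  induction iv with
  | nil => exact ⟨1, one_pos, by simp⟩
  | cons a l ih =>
    obtain ⟨C, hC, h⟩ := ih
    have a1 := abs_nonneg (top a.1)
    have a2 := abs_nonneg (top a.2)
    have a3 := abs_nonneg (bot a.1)
    have a4 := abs_nonneg (bot a.2)
    refine ⟨C + |top a.1| + |top a.2| + |bot a.1| + |bot a.2|, by linarith, ?_⟩
    intro e he
    rcases List.mem_cons.1 he with rfl | he
    · refine ⟨?_, ?_, ?_, ?_⟩ <;> linarith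
    · obtain ⟨b1, b2, b3, b4⟩ := h e he
      refine ⟨?_, ?_, ?_, ?_⟩ <;> linarith

theorem complete {iv : List It} (top bot : ℕ → ℝ)
    (hp : ∀ e ∈ iv, ∀ f ∈ iv, (prec e.2 f.1 = true ↔ top e.2 < top f.1 ∧ bot e.2 < bot f.1))
    (hs : ∀ e ∈ iv, top e.1 - bot e.1 = top e.2 - bot e.2) (hle : ∀ e ∈ iv, top e.1 ≤ top e.2) :
    IsNeST (gr iv) := by
  obtain ⟨C, hC, hb⟩ := exists_bound iv top bot
  have hL : (0 : ℝ) < 5 * C := by linarith
  let it : Fin (vs iv).length → It := fun i => (vs iv)[i].1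
  have hit : ∀ i, it i ∈ iv := fun i => (vs_get iv i).2
  let lo : Fin (vs iv).length → ℝ := fun i => bot (it i).1 + C
  let hi : Fin (vs iv).length → ℝ := fun i => top (it i).2 + 3 * C
  let t : Fin (vs iv).length → ℝ := fun i => top (it i).1 - bot (it i).1 + 2 * C
  have facts : ∀ i, 0 ≤ lo i ∧ hi i ≤ 5 * C ∧ 0 < t i ∧ t i ≤ hi i - lo i := by
    intro i
    obtain ⟨b1, b2, b3, b4⟩ := hb _ (hit i)
    rw [abs_lt] at b1 b2 b3 b4
    have := hle _ (hit i)
    simp only [lo, hi, t]
    refine ⟨?_, ?_, ?_, ?_⟩ <;> linarith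
  have hr : ∀ i, 0 < (hi i - lo i) / 2 := fun i => by
    obtain ⟨-, -, f3, f4⟩ := facts i
    linarith
  have c0 : ∀ i, 0 ≤ (lo i + hi i) / 2 := fun i => by
    have := facts i
    have := hr i
    linarith
  have c1 : ∀ i, (lo i + hi i) / 2 ≤ 5 * C := fun i => by
    have := facts i
    have := hr i
    linarith
  refine ⟨seg (5 * C) hL, fun i => spt hL ((lo i + hi i) / 2) (c0 i) (c1 i),
    fun i => (hi i - lo i) / 2, t, hr, fun i => (facts i).2.2.1, ?_⟩
  intro x y hxy
  rw [adj_iff_dist (seg (5 * C) hL).isEmbeddedTree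
    (c := fun i => spt hL ((lo i + hi i) / 2) (c0 i) (c1 i)) (r := fun i => (hi i - lo i) / 2)
    hr (fun i => (facts i).2.2.1) (fun i => seg_size hL (hr i) (by linarith [(facts i).1])
      (by linarith [(facts i).2.1])) x y, gr_adj iv x y hxy]
  simp only [dist_spt]
  change Ad (it x) (it y) ↔ _
  unfold Ad
  rw [← Bool.not_eq_true, ← Bool.not_eq_true, hp _ (hit x) _ (hit y), hp _ (hit y) _ (hit x)]
  have s1 := hs _ (hit x)
  have s2 := hs _ (hit y)
  have l1 := hle _ (hit x)
  have l2 := hle _ (hit y)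
  simp only [lo, hi, t, le_min_iff, min_le_iff, not_and_or, not_lt]
  generalize top (it x).1 = a1 at *
  generalize top (it x).2 = a2 at *
  generalize bot (it x).1 = a3 at *
  generalize bot (it x).2 = a4 at *
  generalize top (it y).1 = b1 at *
  generalize top (it y).2 = b2 at *
  generalize bot (it y).1 = b3 at *
  generalize bot (it y).2 = b4 at *
  rcases abs_cases ((a3 + C + (a2 + 3 * C)) / 2 - (b3 + C + (b2 + 3 * C)) / 2) with
    ⟨e, he⟩ | ⟨e, he⟩ <;> rw [e] <;> constructor
  all_goals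
    first
    | (rintro ⟨h1 | h1, h2 | h2⟩ <;>
        rcases le_total (a1 - a3) (b1 - b3) with h3 | h3 <;>
        refine ⟨⟨?_, ?_⟩, ?_⟩ <;> first | (left; linarith) | (right; linarith))
    | (rintro ⟨⟨h1 | h1, h2 | h2⟩, h3 | h3⟩ <;> refine ⟨?_, ?_⟩ <;>
        rcases le_total (a1 - a3) (b1 - b3) with h4 | h4 <;>
        first | (left; linarith) | (right; linarith))

end Pool.Agent.H692Z.Nest
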