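import Pool.Agent.H692Z.Nest.Red

set_option autoImplicit false

/-! Satisfiable formulas give NeST graphs; NP-hardness. -/

namespace Pool.Agent.H692Z.Nest

open Pool.Agent.NPC Pool.Agent.NPC.R671

def val (τ : ℕ → Bool) (ρ : ℕ) : Bool := if ρ = 0 then false else τ (ρ - 1)

def dl (τ : ℕ → Bool) (l : Lit ℕ) : ℤ := if τ l.2 = l.1 then 24 else -8

def eta (τ : ℕ → Bool) (c : Cl) (k : ℕ) : ℤ :=
  if k = 0 then dl τ c.1 else if k = 1 then dl τ c.1 + dl τ c.2.1
  else if k = 2 then dl τ c.1 + dl τ c.2.1 + dl τ c.2.2 else 0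

def dflt (b : Bool) : ℤ × ℤ := bif b then (0, 10) else (10, 0)

def uvc (τ : ℕ → Bool) (c : Cl) (k : ℕ) : ℤ × ℤ :=
  bif pol c k then (eta τ c ((k + 3) % 4), eta τ c k) else (eta τ c k, eta τ c ((k + 3) % 4))

def uv (φ : List Cl) (τ : ℕ → Bool) (s : ℕ) : ℤ × ℤ :=
  match φ[s % (4 * φ.length + 1) / 4]? with
  | none => dflt (val τ (s / (4 * φ.length + 1)))
  | some c => if reg c (s % (4 * φ.length + 1) % 4) = s / (4 * φ.length + 1) then
      uvc τ c (s % (4 * φ.length + 1) % 4) else dflt (val τ (s / (4 * φ.length + 1)))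

def sgn (φ : List Cl) (τ : ℕ → Bool) (s : ℕ) : Bool := val τ (s / (4 * φ.length + 1))

/-- Bounds and orientation for a pair of slopes. -/
def Good (b : Bool) (p : ℤ × ℤ) : Prop :=
  -100 ≤ p.1 ∧ p.1 ≤ 100 ∧ -100 ≤ p.2 ∧ p.2 ≤ 100 ∧
    (b = true → p.1 + 7 ≤ p.2) ∧ (b = false → p.2 + 7 ≤ p.1)

theorem good_dflt (b : Bool) : Good b (dflt b) := by
  cases b <;> simp [Good, dflt]

theorem good_uvc {τ : ℕ → Bool} {c : Cl}
    (hc : τ c.1.2 = c.1.1 ∨ τ c.2.1.2 = c.2.1.1 ∨ τ c.2.2.2 = c.2.2.1) {k : ℕ} (hk : k < 4) :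
    Good (val τ (reg c k)) (uvc τ c k) := by
  obtain ⟨⟨p0, x0⟩, ⟨p1, x1⟩, ⟨p2, x2⟩⟩ := c
  simp only at hc
  interval_cases k <;> simp only [Good, val, reg, uvc, pol, eta, dl] <;>
    cases h0 : τ x0 <;> cases h1 : τ x1 <;> cases h2 : τ x2 <;>
    cases p0 <;> cases p1 <;> cases p2 <;> simp_all

theorem ok_uv {φ : List Cl} {τ : ℕ → Bool}
    (h : ∀ c ∈ φ, τ c.1.2 = c.1.1 ∨ τ c.2.1.2 = c.2.1.1 ∨ τ c.2.2.2 = c.2.2.1) :
    OK (sgn φ τ) (fun s => (uv φ τ s).1) (fun s => (uv φ τ s).2) := by
  intro s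
  change Good (sgn φ τ s) (uv φ τ s)
  unfold sgn uv
  split
  · exact good_dflt _
  · rename_i c hc
    split_ifs with h1
    · rw [← h1]
      exact good_uvc (h c (List.mem_of_getElem? hc)) (Nat.mod_lt _ (by norm_num))
    · exact good_dflt _

theorem uv_blk {φ : List Cl} (τ : ℕ → Bool) {j k : ℕ} {c : Cl} (hc : φ[j]? = some c)
    (hk : k < 4) : uv φ τ (blk φ.length c j k) = uvc τ c k := by
  have hj := lt_of_get hc
  obtain ⟨h1, h2⟩ := div_mod_blk (m := φ.length) (ρ := reg c k) (σ := 4 * j + k) (by omega)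
  unfold uv blk
  rw [h1, h2, show (4 * j + k) / 4 = j by omega, show (4 * j + k) % 4 = k by omega, hc]
  simp

/-- The location lies in a used block. -/
def Used (m a : ℕ) : Prop := a / 8 % (4 * m + 1) < 4 * m

theorem used_blk {m j k i : ℕ} (c : Cl) (hj : j < m) (hk : k < 4) (hi : i < 8) {a : ℕ}
    (ha : a = 8 * blk m c j k + i) : Used m a := by
  unfold Used
  rw [show a / 8 = blk m c j k by omega]
  unfold blk
  rw [(div_mod_blk (by omega)).2]
  omega

theorem used_of_mem {φ : List Cl} {e : It} (he : e ∈ ivs φ) :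
    Used φ.length e.1 ∧ Used φ.length e.2 := by
  rcases List.mem_append.1 he with h | h
  · obtain ⟨h1, -, h3⟩ := mem_fills.1 h
    exact ⟨h3, h1 ▸ h3⟩
  · obtain ⟨c, j, k, h1, h2, rfl⟩ := mem_elems.1 h
    have hj := lt_of_get h1
    have k1 : ∀ i < 2, Used φ.length (2 * sndP φ.length c j k + i) := by
      intro i hi
      unfold sndP
      cases pol c k
      · exact used_blk c hj h2 (i := 2 + i) (by omega) (by simp only [cond_false]; omega)
      · exact used_blk c hj h2 (i := 4 + i) (by omega) (by simp only [cond_true]; omega)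
    have k2 : ∀ i < 2, Used φ.length (2 * fstP φ.length c j ((k + 1) % 4) + i) := by
      intro i hi
      unfold fstP
      cases pol c ((k + 1) % 4)
      · exact used_blk c hj (k := (k + 1) % 4) (by omega) (i := 4 + i) (by omega)
          (by simp only [cond_false]; omega)
      · exact used_blk c hj (k := (k + 1) % 4) (by omega) (i := 2 + i) (by omega)
          (by simp only [cond_true]; omega)
    unfold elem mkI
    split_ifs
    · exact ⟨k1 1 (by omega), k2 0 (by omega)⟩
    · exact ⟨k2 1 (by omega), k1 0 (by omega)⟩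

theorem sgn_succ (φ : List Cl) (τ : ℕ → Bool) {a s : ℕ} (h : Used φ.length a) (hs : a / 8 + 1 = s) :
    sgn φ τ (a / 8) = sgn φ τ s := by
  unfold sgn
  unfold Used at h
  have e := Nat.div_add_mod (a / 8) (4 * φ.length + 1)
  have := (div_mod_blk (m := φ.length) (ρ := a / 8 / (4 * φ.length + 1))
    (σ := a / 8 % (4 * φ.length + 1) + 1) (by omega)).1
  rw [← hs]
  congr 1
  rw [← this]
  congr 1
  rw [mul_comm] at e
  omega

theorem nest_of_sat {φ : List Cl} (hs : SAT3 φ) : IsNeST (gr (ivs φ)) := by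
  obtain ⟨τ, hτ⟩ := hs
  have hok := ok_uv hτ
  set sg := sgn φ τ
  set u := fun s => (uv φ τ s).1 with hu
  set v := fun s => (uv φ τ s).2 with hv
  have hgeo : ∀ a b, Used φ.length a → Used φ.length b →
      (prec a b = true ↔ top sg u v a < top sg u v b ∧ bot sg u v a < bot sg u v b) :=
    fun a b ha hb => geo hok a b (fun h => sgn_succ φ τ ha h) (fun h => (sgn_succ φ τ hb h).symm)
  have s1 : ∀ c j k, φ[j]? = some c → k < 4 → ∀ i < 2,
      top sg u v (2 * sndP φ.length c j k + i) - bot sg u v (2 * sndP φ.length c j k + i) =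
        2 * eta τ c k := by
    intro c j k hc hk i hi
    have := uv_blk τ hc hk
    unfold sndP
    unfold uvc at this
    cases hp : pol c k
    · rw [hp] at this
      simp only [cond_false] at this ⊢
      rw [slope1 sg u v _ i hi, hu]
      simp only [this]
    · rw [hp] at this
      simp only [cond_true] at this ⊢
      rw [slope2 sg u v _ i hi, hv]
      simp only [this]
  have s2 : ∀ c j k, φ[j]? = some c → k < 4 → ∀ i < 2,
      top sg u v (2 * fstP φ.length c j k + i) - bot sg u v (2 * fstP φ.length c j k + i) =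
        2 * eta τ c ((k + 3) % 4) := by
    intro c j k hc hk i hi
    have := uv_blk τ hc hk
    unfold fstP
    unfold uvc at this
    cases hp : pol c k
    · rw [hp] at this
      simp only [cond_false] at this ⊢
      rw [slope2 sg u v _ i hi, hv]
      simp only [this]
    · rw [hp] at this
      simp only [cond_true] at this ⊢
      rw [slope1 sg u v _ i hi, hu]
      simp only [this]
  refine complete (fun a => (top sg u v a : ℝ)) (fun a => (bot sg u v a : ℝ)) ?_ ?_ ?_
  · intro e he f hf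
    rw [hgeo _ _ (used_of_mem he).2 (used_of_mem hf).1]
    simp only [Int.cast_lt]
  · intro e he
    have : top sg u v e.1 - bot sg u v e.1 = top sg u v e.2 - bot sg u v e.2 := by
      rcases List.mem_append.1 he with h | h
      · rw [(mem_fills.1 h).1]
      · obtain ⟨c, j, k, h1, h2, rfl⟩ := mem_elems.1 h
        have a1 := s1 c j k h1 h2
        have a2 := s2 c j ((k + 1) % 4) h1 (by omega)
        rw [show ((k + 1) % 4 + 3) % 4 = k by omega] at a2
        unfold elem mkI
        split_ifs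
        · exact (a1 1 (by omega)).trans (a2 0 (by omega)).symm
        · exact (a2 1 (by omega)).trans (a1 0 (by omega)).symm
    exact_mod_cast this
  · intro e he
    have : top sg u v e.1 ≤ top sg u v e.2 := by
      rcases List.mem_append.1 he with h | h
      · rw [(mem_fills.1 h).1]
      · refine ((hgeo _ _ (used_of_mem he).1 (used_of_mem he).2).1 ?_).1.le
        obtain ⟨c, j, k, h1, h2, rfl⟩ := mem_elems.1 h
        have := far c (lt_of_get h1) h2
        rw [prec_iff]
        unfold elem mkI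
        split_ifs <;> simp only <;> omega
    exact_mod_cast this

theorem isNeST_congr {n n' : ℕ} {G : SimpleGraph (Fin n)} {H : SimpleGraph (Fin n')}
    (h : adjMatrix G = adjMatrix H) (hG : IsNeST G) : IsNeST H := by
  have : n = n' := by
    have := congrArg List.length h
    simpa [adjMatrix] using this
  subst this
  rw [← adjMatrix_inj h]
  exact hG

theorem correct {φ : List Cl} (hb : Bounded3 φ) : SAT3 φ ↔ NeSTRec (mat φ) := by
  have e : adjMatrix (gr (ivs φ)) = mat φ := adjMatrix_listGraph _ _ _ _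
  constructor
  · exact fun h => ⟨_, gr (ivs φ), e, nest_of_sat h⟩
  · rintro ⟨n, G, h1, h2⟩
    obtain ⟨τ, hτ⟩ := sound self_ad (isNeST_congr (h1.trans e.symm) h2)
    exact sat_of_sep hb hτ

theorem main : NPHardP NeSTRec :=
  (hardPr_SAT3b.trans (Pr' := fun _ => True) poly_mat (fun _ _ => trivial)
    (fun _ h => correct h.2.1)).toHardI.toNPHardP

end Pool.Agent.H692Z.Nest
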