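import Pool.Agent.H692Z.Nest.Geo
import Pool.Agent.NPC.Sat2
import Pool.Agent.H671R2.PolyAuto

set_option autoImplicit false

/-! The reduction from 3-SAT to the recognition of NeST graphs. -/

namespace Pool.Agent.H692Z.Nest

open Pool.Agent.NPC Pool.Agent.NPC.R671

abbrev Cl : Type := Lit ℕ × Lit ℕ × Lit ℕ

def pol (c : Cl) (k : ℕ) : Bool :=
  if k = 0 then c.1.1 else if k = 1 then c.2.1.1 else if k = 2 then c.2.2.1 else true

def reg (c : Cl) (k : ℕ) : ℕ :=
  if k = 0 then c.1.2 + 1 else if k = 1 then c.2.1.2 + 1 else if k = 2 then c.2.2.2 + 1 else 0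

def blk (m : ℕ) (c : Cl) (j k : ℕ) : ℕ := reg c k * (4 * m + 1) + (4 * j + k)

def fstP (m : ℕ) (c : Cl) (j k : ℕ) : ℕ := 4 * blk m c j k + (bif pol c k then 1 else 2)

def sndP (m : ℕ) (c : Cl) (j k : ℕ) : ℕ := 4 * blk m c j k + (bif pol c k then 2 else 1)

def mkI (g g' : ℕ) : It := if g < g' then (2 * g + 1, 2 * g') else (2 * g' + 1, 2 * g)

def elem (m : ℕ) (c : Cl) (j k : ℕ) : It := mkI (sndP m c j k) (fstP m c j ((k + 1) % 4))

def elems (φ : List Cl) : List It :=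
  φ.zipIdx.flatMap fun p => [elem φ.length p.1 p.2 0, elem φ.length p.1 p.2 1,
    elem φ.length p.1 p.2 2, elem φ.length p.1 p.2 3]

def fills (φ : List Cl) : List It :=
  ((List.range ((3 * φ.length + 1) * (4 * φ.length + 1) * 8)).filter
    fun a => decide (a / 8 % (4 * φ.length + 1) < 4 * φ.length)).map fun a => (a, a)

def ivs (φ : List Cl) : List It := fills φ ++ elems φ

def mat (φ : List Cl) : List (List Bool) :=
  (vs (ivs φ)).map fun u => (vs (ivs φ)).map fun w => ad u w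

section PolyT
variable {α : Type} [TEnc α]

@[fun_prop] theorem poly_prec {u v : α → ℕ} (hu : Poly u) (hv : Poly v) :
    Poly (fun x => prec (u x) (v x)) := by
  unfold prec; fun_prop

@[fun_prop] theorem poly_ad {u v : α → It × ℕ} (hu : Poly u) (hv : Poly v) :
    Poly (fun x => ad (u x) (v x)) := by
  unfold ad; fun_prop

@[fun_prop] theorem poly_blk {m j : α → ℕ} {c : α → Cl} (k : ℕ) (hm : Poly m) (hc : Poly c)
    (hj : Poly j) : Poly (fun x => blk (m x) (c x) (j x) k) := by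
  unfold blk reg
  split_ifs <;> fun_prop

@[fun_prop] theorem poly_pol {c : α → Cl} (k : ℕ) (hc : Poly c) : Poly (fun x => pol (c x) k) := by
  unfold pol
  split_ifs <;> fun_prop

@[fun_prop] theorem poly_mkI {u v : α → ℕ} (hu : Poly u) (hv : Poly v) :
    Poly (fun x => mkI (u x) (v x)) := by
  unfold mkI; fun_prop

@[fun_prop] theorem poly_elem {m j : α → ℕ} {c : α → Cl} (k : ℕ) (hm : Poly m) (hc : Poly c)
    (hj : Poly j) : Poly (fun x => elem (m x) (c x) (j x) k) := by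
  unfold elem sndP fstP; fun_prop

theorem poly_elems : Poly elems := by
  unfold elems; fun_prop

theorem poly_fills : Poly fills := by
  have h : UPoly (fun φ : List Cl => φ.length) := UPoly.length Poly.id
  have h2 : Poly (fun φ : List Cl => List.range ((3 * φ.length + 1) * (4 * φ.length + 1) * 8)) :=
    UPoly.range ((((((UPoly.const 3).mul h).add (UPoly.const 1)).mul
      (((UPoly.const 4).mul h).add (UPoly.const 1)))).mul (UPoly.const 8))
  unfold fills
  fun_prop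

theorem poly_mat : Poly mat := by
  have h1 := poly_elems
  have h2 := poly_fills
  have h3 : Poly (fun φ => vs (ivs φ)) := by
    unfold vs ivs; fun_prop
  exact NPC.Poly.map (F := fun φ u => (vs (ivs φ)).map fun w => ad u w) h3
    (NPC.Poly.map (l := fun p : List Cl × (It × ℕ) => vs (ivs p.1)) (F := fun p w => ad p.2 w)
      (h3.comp (Poly.fst Poly.id)) (poly_ad (Poly.snd (Poly.fst Poly.id)) (Poly.snd Poly.id)))

end PolyT

theorem div_mod_blk {m ρ σ : ℕ} (h : σ < 4 * m + 1) :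
    (ρ * (4 * m + 1) + σ) / (4 * m + 1) = ρ ∧ (ρ * (4 * m + 1) + σ) % (4 * m + 1) = σ := by
  constructor
  · rw [add_comm, Nat.add_mul_div_right _ _ (by omega), Nat.div_eq_of_lt h, zero_add]
  · rw [add_comm, Nat.add_mul_mod_self_right, Nat.mod_eq_of_lt h]

theorem mem_fills {φ : List Cl} {e : It} : e ∈ fills φ ↔ e.1 = e.2 ∧
    e.1 < (3 * φ.length + 1) * (4 * φ.length + 1) * 8 ∧
    e.1 / 8 % (4 * φ.length + 1) < 4 * φ.length := by
  unfold fills
  simp only [List.mem_map, List.mem_filter, List.mem_range, decide_eq_true_eq]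
  constructor
  · rintro ⟨a, ⟨h1, h2⟩, rfl⟩; exact ⟨rfl, h1, h2⟩
  · rintro ⟨h0, h1, h2⟩
    exact ⟨e.1, ⟨h1, h2⟩, Prod.ext rfl h0⟩

theorem fill_mem {φ : List Cl} {ρ σ i : ℕ} (hρ : ρ ≤ 3 * φ.length) (hσ : σ < 4 * φ.length)
    (hi : i < 8) {a : ℕ} (ha : a = 8 * (ρ * (4 * φ.length + 1) + σ) + i) : (a, a) ∈ ivs φ := by
  refine List.mem_append_left _ (mem_fills.2 ⟨rfl, ?_, ?_⟩)
  · have : ρ * (4 * φ.length + 1) ≤ (3 * φ.length) * (4 * φ.length + 1) :=
      Nat.mul_le_mul_right _ hρ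
    have h2 : (3 * φ.length + 1) * (4 * φ.length + 1) =
        3 * φ.length * (4 * φ.length + 1) + (4 * φ.length + 1) := by ring
    simp only
    rw [h2]; omega
  · have : a / 8 = ρ * (4 * φ.length + 1) + σ := by omega
    simp only
    rw [this, (div_mod_blk (by omega)).2]; exact hσ

theorem mem_elems {φ : List Cl} {e : It} : e ∈ elems φ ↔
    ∃ c j k, φ[j]? = some c ∧ k < 4 ∧ e = elem φ.length c j k := by
  unfold elems
  simp only [List.mem_flatMap, List.mem_zipIdx_iff_getElem?, List.mem_cons, List.not_mem_nil,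
    or_false]
  constructor
  · rintro ⟨p, hp, h | h | h | h⟩
    exacts [⟨p.1, p.2, 0, hp, by omega, h⟩, ⟨p.1, p.2, 1, hp, by omega, h⟩,
      ⟨p.1, p.2, 2, hp, by omega, h⟩, ⟨p.1, p.2, 3, hp, by omega, h⟩]
  · rintro ⟨c, j, k, h1, h2, h3⟩
    refine ⟨(c, j), h1, ?_⟩
    interval_cases k <;> simp [h3]

theorem lt_of_get {φ : List Cl} {j : ℕ} {c : Cl} (h : φ[j]? = some c) : j < φ.length := by
  by_contra hj
  rw [List.getElem?_eq_none (by omega)] at h
  simp at h

theorem blk_ne {m j k k' : ℕ} (c : Cl) (hj : j < m) (hk : k < 4) (hk' : k' < 4) (h : k ≠ k') :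
    blk m c j k ≠ blk m c j k' := by
  intro e
  have h1 := (div_mod_blk (m := m) (ρ := reg c k) (σ := 4 * j + k) (by omega)).2
  have h2 := (div_mod_blk (m := m) (ρ := reg c k') (σ := 4 * j + k') (by omega)).2
  unfold blk at e
  rw [e, h2] at h1
  omega

theorem far {m j k : ℕ} (c : Cl) (hj : j < m) (hk : k < 4) :
    sndP m c j k + 2 ≤ fstP m c j ((k + 1) % 4) ∨ fstP m c j ((k + 1) % 4) + 2 ≤ sndP m c j k := by
  have := blk_ne c hj hk (k' := (k + 1) % 4) (by omega) (by omega)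
  unfold sndP fstP
  cases pol c k <;> cases pol c ((k + 1) % 4) <;> simp only [cond_true, cond_false] <;> omega

theorem mk_at {g g' : ℕ} (h : g + 2 ≤ g' ∨ g' + 2 ≤ g) :
    (RAt (mkI g g') g ∨ LAt (mkI g g') g) ∧ (RAt (mkI g g') g' ∨ LAt (mkI g g') g') := by
  unfold mkI RAt LAt
  split_ifs with h1 <;> simp only [true_and] <;> omega

theorem reg_le {φ : List Cl} (hb : Bounded3 φ) {j : ℕ} {c : Cl} (h : φ[j]? = some c) (k : ℕ) :
    reg c k ≤ 3 * φ.length := by
  obtain ⟨h1, h2, h3⟩ := hb c (List.mem_of_getElem? h)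
  unfold reg
  split_ifs <;> omega

theorem self_ad {φ : List Cl} : ∀ e ∈ ivs φ, Ad e e := by
  intro e he
  have : e.1 ≤ e.2 := by
    rcases List.mem_append.1 he with h | h
    · exact (mem_fills.1 h).1.le
    · obtain ⟨c, j, k, h1, h2, rfl⟩ := mem_elems.1 h
      have := far c (lt_of_get h1) h2
      unfold elem mkI
      split_ifs <;> simp only <;> omega
  simp only [Ad, prec_false_iff]
  omega

/-- The truth value read off from the tolerances in region `ρ`. -/
def Val (τ : It → ℝ) (m ρ : ℕ) : Prop :=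
  τ (FR (4 * (ρ * (4 * m + 1)) + 1)) < τ (FR (4 * (ρ * (4 * m + 1)) + 1 + 1))

theorem FR_mem {φ : List Cl} {ρ q : ℕ} (hρ : ρ ≤ 3 * φ.length) (hq : q < 16 * φ.length) {g : ℕ}
    (hg : g = 4 * (ρ * (4 * φ.length + 1)) + q) : FR g ∈ ivs φ ∧ FL g ∈ ivs φ :=
  ⟨fill_mem hρ (σ := q / 4) (i := 2 * (q % 4)) (by omega) (by omega) (by omega),
    fill_mem hρ (σ := q / 4) (i := 2 * (q % 4) + 1) (by omega) (by omega) (by omega)⟩

theorem val_iff {φ : List Cl} {τ : It → ℝ} (h : Sep τ (ivs φ)) {ρ : ℕ} (hρ : ρ ≤ 3 * φ.length) :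
    ∀ n, 2 * n + 2 < 16 * φ.length →
      (τ (FR (4 * (ρ * (4 * φ.length + 1)) + 1 + 2 * n)) <
        τ (FR (4 * (ρ * (4 * φ.length + 1)) + 1 + 2 * n + 1)) ↔ Val τ φ.length ρ) := by
  intro n
  induction n with
  | zero => intro _; rfl
  | succ n ih =>
    intro hn
    rw [← ih (by omega)]
    set g := 4 * (ρ * (4 * φ.length + 1)) + 1 + 2 * n with hg
    have m0 := FR_mem hρ (q := 1 + 2 * n) (g := g) (by omega) (by omega)
    have m1 := FR_mem hρ (q := 2 + 2 * n) (g := g + 1) (by omega) (by omega)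
    have m2 := FR_mem hρ (q := 3 + 2 * n) (g := g + 2) (by omega) (by omega)
    have m3 := FR_mem hρ (q := 4 + 2 * n) (g := g + 1 + 2) (by omega) (by omega)
    have a1 := alt h m0.1 m1.1 m1.2 m2.1 m2.2
    have a2 := alt h (g := g + 1) m1.1 m2.1 m2.2 m3.1 m3.2
    have e1 : 4 * (ρ * (4 * φ.length + 1)) + 1 + 2 * (n + 1) = g + 1 + 1 := by omega
    rw [e1]
    change τ (FR (g + 1 + 1)) < τ (FR (g + 1 + 2)) ↔ _
    rw [a2]
    change ¬ τ (FR (g + 1)) < τ (FR (g + 2)) ↔ _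
    rw [a1, not_not]

theorem slot_cmp {φ : List Cl} (hb : Bounded3 φ) {τ : It → ℝ} (h : Sep τ (ivs φ)) {j k : ℕ}
    {c : Cl} (hc : φ[j]? = some c) (hk : k < 4) :
    (τ (elem φ.length c j ((k + 3) % 4)) < τ (elem φ.length c j k) ∧
        (Val τ φ.length (reg c k) ↔ pol c k = true)) ∨
      (τ (elem φ.length c j k) < τ (elem φ.length c j ((k + 3) % 4)) ∧
        ¬ (Val τ φ.length (reg c k) ↔ pol c k = true)) := by
  have hj := lt_of_get hc
  have hρ := reg_le hb hc k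
  have he : elem φ.length c j k ∈ ivs φ :=
    List.mem_append_right _ (mem_elems.2 ⟨c, j, k, hc, hk, rfl⟩)
  have hf : elem φ.length c j ((k + 3) % 4) ∈ ivs φ :=
    List.mem_append_right _ (mem_elems.2 ⟨c, j, _, hc, by omega, rfl⟩)
  have a1 := (mk_at (far c hj hk)).1
  have a2 := (mk_at (far c hj (k := (k + 3) % 4) (by omega))).2
  change RAt (elem φ.length c j k) _ ∨ LAt (elem φ.length c j k) _ at a1
  change RAt (elem φ.length c j ((k + 3) % 4)) _ ∨ LAt (elem φ.length c j ((k + 3) % 4)) _ at a2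
  rw [show ((k + 3) % 4 + 1) % 4 = k by omega] at a2
  set g := 4 * blk φ.length c j k + 1 with hg
  have hg' : g = 4 * (reg c k * (4 * φ.length + 1)) + 1 + 2 * (2 * (4 * j + k)) := by
    rw [hg]; unfold blk; omega
  have m0 := FR_mem hρ (q := 1 + 2 * (2 * (4 * j + k))) (g := g) (by omega) (by omega)
  have m1 := FR_mem hρ (q := 2 + 2 * (2 * (4 * j + k))) (g := g + 1) (by omega) (by omega)
  have hv := val_iff h hρ (2 * (4 * j + k)) (by omega)
  rw [← hg'] at hv
  unfold sndP at a1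
  unfold fstP at a2
  cases hp : pol c k
  · rw [hp] at a1 a2
    rcases cmp h m0.1 m0.2 m1.1 m1.2 he hf a1 a2 with ⟨b1, b2⟩ | ⟨b1, b2⟩
    · right; exact ⟨b1, by rw [← hv]; simp [b2]⟩
    · left; exact ⟨b1, by rw [← hv]; simp [not_lt.1 b2]⟩
  · rw [hp] at a1 a2
    rcases cmp h m0.1 m0.2 m1.1 m1.2 hf he a2 a1 with ⟨b1, b2⟩ | ⟨b1, b2⟩
    · left; exact ⟨b1, by rw [← hv]; simp [b2]⟩
    · right; exact ⟨b1, by rw [← hv]; simp [not_lt.1 b2]⟩

theorem sat_of_sep {φ : List Cl} (hb : Bounded3 φ) {τ : It → ℝ} (h : Sep τ (ivs φ)) : SAT3 φ := by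
  classical
  refine ⟨fun x => decide (¬ (Val τ φ.length (x + 1) ↔ Val τ φ.length 0)), ?_⟩
  intro c hc
  obtain ⟨j, hj, rfl⟩ := List.getElem_of_mem hc
  have hc' : φ[j]? = some φ[j] := List.getElem?_eq_getElem hj
  have s0 := slot_cmp hb h hc' (k := 0) (by omega)
  have s1 := slot_cmp hb h hc' (k := 1) (by omega)
  have s2 := slot_cmp hb h hc' (k := 2) (by omega)
  have s3 := slot_cmp hb h hc' (k := 3) (by omega)
  generalize φ[j] = c at *
  obtain ⟨⟨p0, x0⟩, ⟨p1, x1⟩, ⟨p2, x2⟩⟩ := c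
  simp only [pol, reg, Nat.reduceAdd, Nat.reduceMod, if_true, OfNat.ofNat_ne_zero, if_false,
    one_ne_zero, OfNat.ofNat_ne_one, Nat.reduceEqDiff, iff_true, zero_add] at s0 s1 s2 s3
  simp only
  generalize Val τ φ.length (x0 + 1) = V0 at *
  generalize Val τ φ.length (x1 + 1) = V1 at *
  generalize Val τ φ.length (x2 + 1) = V2 at *
  generalize Val τ φ.length 0 = V3 at *
  by_contra hcon
  rcases s0 with ⟨a0, b0⟩ | ⟨a0, b0⟩ <;> rcases s1 with ⟨a1, b1⟩ | ⟨a1, b1⟩ <;>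
    rcases s2 with ⟨a2, b2⟩ | ⟨a2, b2⟩ <;> rcases s3 with ⟨a3, b3⟩ | ⟨a3, b3⟩ <;>
    first
    | linarith
    | (apply hcon
       by_cases v0 : V0 <;> by_cases v1 : V1 <;> by_cases v2 : V2 <;> by_cases v3 : V3 <;>
         cases p0 <;> cases p1 <;> cases p2 <;> simp_all)

end Pool.Agent.H692Z.Nest
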