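import Pool.Agent.H692Z.Nest.Defs
import Pool.Agent.Helper997.NeST

set_option autoImplicit false

/-! Embedded trees are geodesic, satisfy the four-point condition and are finitely spanned. -/

namespace Pool.Agent.H692Z.Nest

open Metric Pool.Agent.Helper997.NeST

namespace ETree

variable (T : ETree)

/-- The points of the tree as plain vectors. -/
def S : Set (Fin T.n → ℝ) :=
  {v | v = 0 ∨ ∃ (i : Fin T.n) (s : ℝ), 0 ≤ s ∧ s ≤ T.len i ∧ v = T.pos (T.par i) + Pi.single i s}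

theorem ind {P : Fin (T.n + 1) → Prop} (h0 : P 0) (hs : ∀ i, P (T.par i) → P i.succ) :
    ∀ a, P a := by
  have key : ∀ N : ℕ, ∀ a : Fin (T.n + 1), (a : ℕ) ≤ N → P a := by
    intro N
    induction N with
    | zero =>
      intro a ha
      have : a = 0 := Fin.ext (by simpa using ha)
      rw [this]; exact h0
    | succ N ih =>
      intro a ha
      rcases Fin.eq_zero_or_eq_succ a with rfl | ⟨i, rfl⟩
      · exact h0
      · refine hs i (ih _ ?_)
        have := T.par_le i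
        simp only [Fin.val_succ] at ha
        omega
  exact fun a => key _ a le_rfl

theorem pos_mem (a : Fin (T.n + 1)) : T.pos a ∈ T.S := by
  rcases Fin.eq_zero_or_eq_succ a with rfl | ⟨i, rfl⟩
  · exact Or.inl T.pos_zero
  · exact Or.inr ⟨i, T.len i, (T.len_pos i).le, le_rfl, T.pos_succ i⟩

theorem single_nonneg (i : Fin T.n) {s : ℝ} (hs : 0 ≤ s) : (0 : Fin T.n → ℝ) ≤ Pi.single i s := by
  intro k
  by_cases h : k = i
  · subst h; simpa using hs
  · simp [h]

theorem pos_eq_zero : ∀ (a : Fin (T.n + 1)) (k : Fin T.n), (a : ℕ) ≤ k → T.pos a k = 0 := by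
  refine T.ind (fun k _ => by rw [T.pos_zero]; rfl) ?_
  intro i ih k hk
  simp only [Fin.val_succ] at hk
  have h1 := T.par_le i
  have hne : k ≠ i := fun e => by rw [e] at hk; omega
  rw [T.pos_succ, Pi.add_apply, ih k (by omega)]
  simp [hne]

theorem pos_par_self (i : Fin T.n) : T.pos (T.par i) i = 0 := T.pos_eq_zero _ _ (T.par_le i)

theorem pos_nonneg : ∀ a : Fin (T.n + 1), 0 ≤ T.pos a := by
  refine T.ind (by rw [T.pos_zero]) ?_
  intro i ih
  rw [T.pos_succ]
  exact add_nonneg ih (T.single_nonneg i (T.len_pos i).le)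

theorem nonneg_of_mem {v : Fin T.n → ℝ} (hv : v ∈ T.S) : 0 ≤ v := by
  rcases hv with rfl | ⟨i, s, h0, -, rfl⟩
  · exact le_rfl
  · exact add_nonneg (T.pos_nonneg _) (T.single_nonneg i h0)

theorem par_le_pos (i : Fin T.n) : ∀ a : Fin (T.n + 1), 0 < T.pos a i → T.pos (T.par i) ≤ T.pos a := by
  refine T.ind (fun h => by rw [T.pos_zero] at h; simp at h) ?_
  intro j ih h
  have hle : T.pos (T.par j) ≤ T.pos j.succ := by
    rw [T.pos_succ]
    exact le_add_of_nonneg_right (T.single_nonneg j (T.len_pos j).le)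
  by_cases hij : i = j
  · rw [hij]; exact hle
  · rw [T.pos_succ, Pi.add_apply] at h
    simp only [ne_eq, hij, not_false_eq_true, Pi.single_eq_of_ne, add_zero] at h
    exact (ih h).trans hle

theorem par_le_mem (i : Fin T.n) {z : Fin T.n → ℝ} (hz : z ∈ T.S) (h : 0 < z i) :
    T.pos (T.par i) ≤ z := by
  rcases hz with rfl | ⟨j, s, h0, -, rfl⟩
  · simp at h
  · have hle : T.pos (T.par j) ≤ T.pos (T.par j) + Pi.single j s :=
      le_add_of_nonneg_right (T.single_nonneg j h0)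
    by_cases hij : i = j
    · rw [hij]; exact hle
    · rw [Pi.add_apply] at h
      simp only [ne_eq, hij, not_false_eq_true, Pi.single_eq_of_ne, add_zero] at h
      exact (T.par_le_pos i _ h).trans hle

theorem below (i : Fin T.n) {s : ℝ} {z : Fin T.n → ℝ} (hz : z ∈ T.S)
    (h : z ≤ T.pos (T.par i) + Pi.single i s) :
    (∃ s', 0 ≤ s' ∧ z = T.pos (T.par i) + Pi.single i s') ∨ z ≤ T.pos (T.par i) := by
  by_cases hi : 0 < z i
  · left
    refine ⟨z i, hi.le, ?_⟩
    have h1 := T.par_le_mem i hz hi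
    funext k
    by_cases hk : k = i
    · subst hk; simp [T.pos_par_self]
    · have h2 := h k
      have h3 := h1 k
      simp only [Pi.add_apply, ne_eq, hk, not_false_eq_true, Pi.single_eq_of_ne, add_zero] at h2 ⊢
      exact le_antisymm h2 h3
  · right
    intro k
    by_cases hk : k = i
    · subst hk; rw [T.pos_par_self]; exact not_lt.1 hi
    · have h2 := h k
      simpa [hk] using h2

theorem single_mono (i : Fin T.n) {s t : ℝ} (h : s ≤ t) :
    (Pi.single i s : Fin T.n → ℝ) ≤ Pi.single i t := by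
  intro k
  by_cases hk : k = i
  · subst hk; simpa using h
  · simp [hk]

theorem chain_pos : ∀ a : Fin (T.n + 1), ∀ z ∈ T.S, ∀ z' ∈ T.S, z ≤ T.pos a → z' ≤ T.pos a →
    z ≤ z' ∨ z' ≤ z := by
  refine T.ind ?_ ?_
  · intro z _ z' hz' h _
    rw [T.pos_zero] at h
    exact Or.inl (h.trans (T.nonneg_of_mem hz'))
  · intro i ih z hz z' hz' h h'
    rw [T.pos_succ] at h h'
    rcases T.below i hz h with ⟨s, hs, rfl⟩ | h1 <;> rcases T.below i hz' h' with ⟨s', hs', rfl⟩ | h2
    · rcases le_total s s' with h3 | h3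
      · exact Or.inl (add_le_add le_rfl (T.single_mono i h3))
      · exact Or.inr (add_le_add le_rfl (T.single_mono i h3))
    · exact Or.inr (h2.trans (le_add_of_nonneg_right (T.single_nonneg i hs)))
    · exact Or.inl (h1.trans (le_add_of_nonneg_right (T.single_nonneg i hs')))
    · exact ih z hz z' hz' h1 h2

theorem chain {p z z' : Fin T.n → ℝ} (hp : p ∈ T.S) (hz : z ∈ T.S) (hz' : z' ∈ T.S)
    (h : z ≤ p) (h' : z' ≤ p) : z ≤ z' ∨ z' ≤ z := by
  have : ∃ a, p ≤ T.pos a := by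
    rcases hp with rfl | ⟨i, s, -, h1, rfl⟩
    · exact ⟨0, T.pos_nonneg 0⟩
    · exact ⟨i.succ, by rw [T.pos_succ]; exact add_le_add le_rfl (T.single_mono i h1)⟩
  obtain ⟨a, ha⟩ := this
  exact T.chain_pos a z hz z' hz' (h.trans ha) (h'.trans ha)

theorem meet_step {p : Fin T.n → ℝ} (hp : p ∈ T.S) (j : Fin T.n) {u : ℝ} (h0 : 0 ≤ u)
    (h1 : u ≤ T.len j) (ih : p ⊓ T.pos (T.par j) ∈ T.S) :
    p ⊓ (T.pos (T.par j) + Pi.single j u) ∈ T.S := by
  by_cases hj : 0 < p j
  · have h2 := T.par_le_mem j hp hj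
    refine Or.inr ⟨j, min (p j) u, le_min hj.le h0, (min_le_right _ _).trans h1, ?_⟩
    funext k
    by_cases hk : k = j
    · subst hk; simp [T.pos_par_self]
    · have h3 := h2 k
      simp only [Pi.inf_apply, Pi.add_apply, ne_eq, hk, not_false_eq_true, Pi.single_eq_of_ne,
        add_zero]
      exact min_eq_right h3
  · have h2 : p j = 0 := le_antisymm (not_lt.1 hj) (T.nonneg_of_mem hp j)
    convert ih using 1
    funext k
    by_cases hk : k = j
    · subst hk; simp [T.pos_par_self, h2, h0]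
    · simp [hk]

theorem meet_pos {p : Fin T.n → ℝ} (hp : p ∈ T.S) : ∀ a : Fin (T.n + 1), p ⊓ T.pos a ∈ T.S := by
  refine T.ind ?_ ?_
  · rw [T.pos_zero, inf_eq_right.2 (T.nonneg_of_mem hp)]
    exact Or.inl rfl
  · intro i ih
    rw [T.pos_succ]
    exact T.meet_step hp i (T.len_pos i).le le_rfl ih

theorem meet {p q : Fin T.n → ℝ} (hp : p ∈ T.S) (hq : q ∈ T.S) : p ⊓ q ∈ T.S := by
  rcases hq with rfl | ⟨j, u, h0, h1, rfl⟩
  · rw [inf_eq_right.2 (T.nonneg_of_mem hp)]
    exact Or.inl rfl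
  · exact T.meet_step hp j h0 h1 (T.meet_pos hp _)

theorem sum_edge (j : Fin T.n) (u : ℝ) :
    ∑ k, (T.pos (T.par j) + Pi.single j u : Fin T.n → ℝ) k = ∑ k, T.pos (T.par j) k + u := by
  simp [Finset.sum_add_distrib]

theorem below_step (j : Fin T.n) {u : ℝ} (h0 : 0 ≤ u) (h1 : u ≤ T.len j)
    (ih : ∀ s, 0 ≤ s → s ≤ ∑ k, T.pos (T.par j) k → ∃ z ∈ T.S, z ≤ T.pos (T.par j) ∧ ∑ k, z k = s)
    (s : ℝ) (hs : 0 ≤ s) (hs' : s ≤ ∑ k, (T.pos (T.par j) + Pi.single j u : Fin T.n → ℝ) k) :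
    ∃ z ∈ T.S, z ≤ T.pos (T.par j) + Pi.single j u ∧ ∑ k, z k = s := by
  rw [T.sum_edge] at hs'
  rcases le_total s (∑ k, T.pos (T.par j) k) with h | h
  · obtain ⟨z, hz, h2, h3⟩ := ih s hs h
    exact ⟨z, hz, h2.trans (le_add_of_nonneg_right (T.single_nonneg j h0)), h3⟩
  · refine ⟨T.pos (T.par j) + Pi.single j (s - ∑ k, T.pos (T.par j) k),
      Or.inr ⟨j, _, by linarith, by linarith, rfl⟩,
      add_le_add le_rfl (T.single_mono j (by linarith)), ?_⟩
    rw [T.sum_edge]; ring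

theorem below_pos : ∀ a : Fin (T.n + 1), ∀ s, 0 ≤ s → s ≤ ∑ k, T.pos a k →
    ∃ z ∈ T.S, z ≤ T.pos a ∧ ∑ k, z k = s := by
  refine T.ind ?_ ?_
  · intro s h0 h1
    rw [T.pos_zero] at h1 ⊢
    simp only [Pi.zero_apply, Finset.sum_const_zero] at h1
    exact ⟨0, Or.inl rfl, le_rfl, by simp; linarith⟩
  · intro i ih s h0 h1
    rw [T.pos_succ] at h1 ⊢
    exact T.below_step i (T.len_pos i).le le_rfl ih s h0 h1

theorem exists_below {p : Fin T.n → ℝ} (hp : p ∈ T.S) (s : ℝ) (h0 : 0 ≤ s) (h1 : s ≤ ∑ k, p k) :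
    ∃ z ∈ T.S, z ≤ p ∧ ∑ k, z k = s := by
  rcases hp with rfl | ⟨j, u, h2, h3, rfl⟩
  · simp only [Pi.zero_apply, Finset.sum_const_zero] at h1
    exact ⟨0, Or.inl rfl, le_rfl, by simp; linarith⟩
  · exact T.below_step j h2 h3 (T.below_pos _) s h0 h1

/-- The sum of the coordinates. -/
noncomputable def N (v : Fin T.n → ℝ) : ℝ := ∑ k, v k

theorem N_mono {v w : Fin T.n → ℝ} (h : v ≤ w) : T.N v ≤ T.N w :=
  Finset.sum_le_sum fun k _ => h k

theorem eq_of_N {v w : Fin T.n → ℝ} (h : v ≤ w) (h' : T.N w ≤ T.N v) : v = w := by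
  funext k
  by_contra hk
  have : T.N v < T.N w :=
    Finset.sum_lt_sum (fun k _ => h k) ⟨k, Finset.mem_univ _, lt_of_le_of_ne (h k) hk⟩
  linarith

theorem dist_eq (x y : T.pts) :
    dist x y = T.N x.1.ofLp + T.N y.1.ofLp - 2 * T.N (x.1.ofLp ⊓ y.1.ofLp) := by
  rw [Subtype.dist_eq, PiLp.dist_eq_of_L1]
  unfold N
  rw [Finset.mul_sum, ← Finset.sum_add_distrib, ← Finset.sum_sub_distrib]
  refine Finset.sum_congr rfl fun k _ => ?_
  rw [Real.dist_eq, Pi.inf_apply]
  rcases le_total (x.1.ofLp k) (y.1.ofLp k) with h | h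
  · rw [min_eq_left h, abs_of_nonpos (by linarith)]; ring
  · rw [min_eq_right h, abs_of_nonneg (by linarith)]; ring

/-- A vector of `S` as a point of the tree. -/
def mkPt (v : Fin T.n → ℝ) (hv : v ∈ T.S) : T.pts := ⟨WithLp.toLp 1 v, hv⟩

theorem mem (x : T.pts) : x.1.ofLp ∈ T.S := x.2

theorem geo_aux (x y : T.pts) (s : ℝ) (h0 : 0 ≤ s)
    (h1 : s ≤ T.N x.1.ofLp - T.N (x.1.ofLp ⊓ y.1.ofLp)) :
    ∃ z : T.pts, dist x z = s ∧ dist z y = dist x y - s := by
  have hm := T.meet (T.mem x) (T.mem y)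
  have hmn : 0 ≤ T.N (x.1.ofLp ⊓ y.1.ofLp) := by
    have := T.N_mono (T.nonneg_of_mem hm)
    simpa [N] using this
  obtain ⟨z, hz, hzx, hN⟩ := T.exists_below (T.mem x) (T.N x.1.ofLp - s) (by linarith)
    (by unfold N; linarith)
  have hN' : T.N z = T.N x.1.ofLp - s := hN
  have hmz : x.1.ofLp ⊓ y.1.ofLp ≤ z := by
    rcases T.chain (T.mem x) hz hm hzx inf_le_left with h | h
    · exact (T.eq_of_N h (by linarith)).ge
    · exact h
  refine ⟨T.mkPt z hz, ?_, ?_⟩
  · rw [T.dist_eq]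
    change T.N x.1.ofLp + T.N z - 2 * T.N (x.1.ofLp ⊓ z) = s
    rw [inf_eq_right.2 hzx]; linarith
  · rw [T.dist_eq, T.dist_eq]
    change T.N z + T.N y.1.ofLp - 2 * T.N (z ⊓ y.1.ofLp) = _
    have : z ⊓ y.1.ofLp = x.1.ofLp ⊓ y.1.ofLp :=
      le_antisymm (inf_le_inf hzx le_rfl) (le_inf hmz inf_le_right)
    rw [this]; linarith

theorem ultra {p q r : Fin T.n → ℝ} (hp : p ∈ T.S) (hq : q ∈ T.S) (hr : r ∈ T.S) :
    min (T.N (p ⊓ q)) (T.N (q ⊓ r)) ≤ T.N (p ⊓ r) := by
  rcases T.chain hq (T.meet hp hq) (T.meet hq hr) inf_le_right inf_le_left with h | h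
  · exact (min_le_left _ _).trans (T.N_mono (le_inf inf_le_left (h.trans inf_le_right)))
  · exact (min_le_right _ _).trans (T.N_mono (le_inf (h.trans inf_le_left) inf_le_right))

theorem four_aux {xy zw a b c d : ℝ} (h1 : min a d ≤ xy) (h2 : min c b ≤ xy)
    (h3 : min a c ≤ zw) (h4 : min d b ≤ zw) : a + b ≤ xy + zw ∨ c + d ≤ xy + zw := by
  rcases le_total a d with had | had <;> rcases le_total c b with hcb | hcb <;>
  rcases le_total a c with hac | hac <;> rcases le_total d b with hdb | hdb <;>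
  simp only [min_eq_left, min_eq_right, had, hcb, hac, hdb] at h1 h2 h3 h4 <;>
  first
  | (left; linarith)
  | (right; linarith)

theorem isEmbeddedTree : IsEmbeddedTree T.pts where
  nonempty := ⟨T.mkPt 0 (Or.inl rfl)⟩
  geodesic := by
    intro x y s h0 h1
    by_cases h : s ≤ T.N x.1.ofLp - T.N (x.1.ofLp ⊓ y.1.ofLp)
    · exact T.geo_aux x y s h0 h
    · have hd := T.dist_eq x y
      obtain ⟨z, hz1, hz2⟩ := T.geo_aux y x (dist x y - s) (by linarith)
        (by rw [inf_comm]; linarith)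
      refine ⟨z, ?_, ?_⟩
      · rw [dist_comm, hz2, dist_comm y x]; ring
      · rw [dist_comm, hz1]
  fourPoint := by
    intro x y z w
    simp only [T.dist_eq]
    have h1 := T.ultra (T.mem x) (T.mem z) (T.mem y)
    have h2 := T.ultra (T.mem x) (T.mem w) (T.mem y)
    have h3 := T.ultra (T.mem z) (T.mem x) (T.mem w)
    have h4 := T.ultra (T.mem z) (T.mem y) (T.mem w)
    rw [inf_comm z.1.ofLp y.1.ofLp] at h1 h4
    rw [inf_comm w.1.ofLp y.1.ofLp] at h2
    rw [inf_comm z.1.ofLp x.1.ofLp] at h3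
    rcases four_aux h1 h2 h3 h4 with h5 | h5
    · apply le_max_of_le_left; linarith
    · apply le_max_of_le_right; linarith
  spanned := by
    refine ⟨Set.range fun a => T.mkPt _ (T.pos_mem a), Set.finite_range _, ?_⟩
    intro x
    rcases T.mem x with h | ⟨i, s, h0, h1, h⟩
    · have : x = T.mkPt _ (T.pos_mem 0) := by
        apply Subtype.ext
        change x.1 = WithLp.toLp 1 (T.pos 0)
        rw [T.pos_zero, ← h]
      exact ⟨x, ⟨0, this.symm⟩, x, ⟨0, this.symm⟩, by simp⟩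
    · refine ⟨_, ⟨T.par i, rfl⟩, _, ⟨i.succ, rfl⟩, ?_⟩
      simp only [T.dist_eq]
      change T.N (T.pos (T.par i)) + T.N x.1.ofLp - 2 * T.N (T.pos (T.par i) ⊓ x.1.ofLp) +
        (T.N x.1.ofLp + T.N (T.pos i.succ) - 2 * T.N (x.1.ofLp ⊓ T.pos i.succ)) =
        T.N (T.pos (T.par i)) + T.N (T.pos i.succ) - 2 * T.N (T.pos (T.par i) ⊓ T.pos i.succ)
      have a1 : T.pos (T.par i) ≤ x.1.ofLp := by
        rw [h]; exact le_add_of_nonneg_right (T.single_nonneg i h0)
      have a2 : x.1.ofLp ≤ T.pos i.succ := by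
        rw [h, T.pos_succ]; exact add_le_add le_rfl (T.single_mono i h1)
      rw [inf_eq_left.2 a1, inf_eq_left.2 a2, inf_eq_left.2 (a1.trans a2)]
      ring

end ETree

/-- Every ball is a ball about the midpoint of a diameter, with radius half the diameter. -/
theorem canonical {X : Type} [MetricSpace X] (h : IsEmbeddedTree X) (c : X) {r : ℝ} (hr : 0 < r) :
    ∃ c' : X, closedBall c' (diam (closedBall c r) / 2) = closedBall c r := by
  have := h.compact
  have hc : IsCompact (closedBall c r) := isClosed_closedBall.isCompact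
  have hne : (closedBall c r ×ˢ closedBall c r).Nonempty := ⟨(c, c), by simp [hr.le]⟩
  obtain ⟨⟨p, q⟩, hpq, hmax⟩ := (hc.prod hc).exists_isMaxOn hne
    (f := fun z : X × X => dist z.1 z.2) (by fun_prop)
  have hp : p ∈ closedBall c r := hpq.1
  have hq : q ∈ closedBall c r := hpq.2
  have hb : Bornology.IsBounded (closedBall c r) := isBounded_closedBall
  have h1 : diam (closedBall c r) = dist p q := by
    refine le_antisymm ?_ (dist_le_diam_of_mem hb hp hq)
    apply diam_le_of_forall_dist_le dist_nonneg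
    intro x hx y hy
    exact hmax (show (x, y) ∈ closedBall c r ×ˢ closedBall c r from ⟨hx, hy⟩)
  have hd : 0 ≤ dist p q := dist_nonneg
  obtain ⟨m, hm1, hm2⟩ := h.geodesic p q (dist p q / 2) (by linarith) (by linarith)
  refine ⟨m, ?_⟩
  rw [h1]
  ext z
  rw [mem_closedBall, mem_closedBall]
  rw [mem_closedBall] at hp hq
  constructor
  · intro hz
    have h4 := h.fourPoint p q c m
    rw [hm1, dist_comm q m, hm2] at h4
    have h5 := dist_triangle z m c
    rw [dist_comm m c] at h5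
    rcases le_max_iff.mp h4 with h6 | h6 <;> linarith
  · intro hz
    have a1 : dist z p ≤ dist p q := by
      rw [← h1]; exact dist_le_diam_of_mem hb hz hpq.1
    have a2 : dist z q ≤ dist p q := by
      rw [← h1]; exact dist_le_diam_of_mem hb hz hpq.2
    have h4 := h.fourPoint z m p q
    rw [hm2, dist_comm m p, hm1] at h4
    rcases le_max_iff.mp h4 with h6 | h6 <;> linarith

end Pool.Agent.H692Z.Nest
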